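import Pool.Agent.Helper68.CU.PRT

/-!
# Solutions of `(a³ - 1)(b³ - 1) = x²` on a plane curve

If `F(a, b) = 0`, the squarefree part of `a² + a + 1` divides `3 K(F)`, where `K(F)` is a product of
norms of the numbers `F(ζ, ζ^t)`, `t = 0, 1, 2`, `ζ` a primitive third root of unity.
-/

set_option autoImplicit false

namespace Pool.Agent.Helper46.DG

open Finset Pool.Agent.Helper46.CU

/-- `x ^ n = u n + v n x` if `x² + x + 1 = 0` -/
def uv : ℕ → ℤ × ℤ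
  | 0 => (1, 0)
  | n + 1 => (-(uv n).2, (uv n).1 - (uv n).2)

theorem uv_cases (n : ℕ) : uv n = (1, 0) ∨ uv n = (0, 1) ∨ uv n = (-1, -1) := by
  induction n with
  | zero => exact Or.inl rfl
  | succ n ih =>
    rcases ih with h | h | h
    · right; left; simp [uv, h]
    · right; right; simp [uv, h]
    · left; simp [uv, h]

theorem uv_bound (n : ℕ) : |(uv n).1| ≤ 1 ∧ |(uv n).2| ≤ 1 := by
  rcases uv_cases n with h | h | h <;> rw [h] <;> simp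

theorem uv_pow {R : Type*} [CommRing R] (x : R) (hx : x ^ 2 + x + 1 = 0) (n : ℕ) :
    x ^ n = ((uv n).1 : R) + ((uv n).2 : R) * x := by
  induction n with
  | zero => simp [uv]
  | succ n ih =>
    rw [pow_succ, ih, uv]
    push_cast
    linear_combination ((uv n).2 : R) * hx

/-- first coordinate of `F(ζ, ζ^t)` -/
def cU (k : ℕ) (c : ℕ → ℕ → ℤ) (t : ℕ) : ℤ :=
  ∑ i ∈ range (k + 1), ∑ l ∈ range (k + 1), c i l * (uv (i + t * l)).1

/-- second coordinate of `F(ζ, ζ^t)` -/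
def cV (k : ℕ) (c : ℕ → ℕ → ℤ) (t : ℕ) : ℤ :=
  ∑ i ∈ range (k + 1), ∑ l ∈ range (k + 1), c i l * (uv (i + t * l)).2

/-- the norm of `F(ζ, ζ^t)` -/
def cN (k : ℕ) (c : ℕ → ℕ → ℤ) (t : ℕ) : ℤ :=
  cU k c t ^ 2 - cU k c t * cV k c t + cV k c t ^ 2

theorem curve_eval {R : Type*} [CommRing R] (k : ℕ) (c : ℕ → ℕ → ℤ) (t : ℕ) (x : R)
    (hx : x ^ 2 + x + 1 = 0) :
    ∑ i ∈ range (k + 1), ∑ l ∈ range (k + 1), (c i l : R) * x ^ i * (x ^ t) ^ l =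
      (cU k c t : R) + (cV k c t : R) * x := by
  unfold cU cV
  push_cast
  rw [sum_mul, ← sum_add_distrib]
  refine sum_congr rfl fun i _ => ?_
  rw [sum_mul, ← sum_add_distrib]
  refine sum_congr rfl fun l _ => ?_
  rw [mul_assoc, ← pow_mul, ← pow_add, uv_pow x hx]
  ring

theorem cN_zero {k : ℕ} {c : ℕ → ℕ → ℤ} {t : ℕ} (h : cN k c t = 0) :
    cU k c t = 0 ∧ cV k c t = 0 := by
  unfold cN at h
  have h1 : cV k c t = 0 := by
    by_contra h2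
    have h3 : 0 < cV k c t ^ 2 := by positivity
    nlinarith [sq_nonneg (2 * cU k c t - cV k c t)]
  refine ⟨?_, h1⟩
  rw [h1] at h
  have h4 : cU k c t ^ 2 = 0 := by linarith
  exact pow_eq_zero_iff (two_ne_zero) |>.1 h4

theorem cN_ne {k : ℕ} {c : ℕ → ℕ → ℤ} (t : ℕ)
    (h : ∀ z w : ℂ, z ^ 2 + z + 1 = 0 → w ^ 3 = 1 →
      ∑ i ∈ range (k + 1), ∑ l ∈ range (k + 1), (c i l : ℂ) * z ^ i * w ^ l ≠ 0) :
    cN k c t ≠ 0 := by
  intro h0
  obtain ⟨h1, h2⟩ := cN_zero h0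
  obtain ⟨z, hz⟩ : ∃ z : ℂ, z ^ 2 + z + 1 = 0 := by
    obtain ⟨s, hs⟩ : ∃ s : ℂ, s ^ 2 = -3 := IsAlgClosed.exists_pow_nat_eq (-3 : ℂ) (by norm_num)
    refine ⟨(s - 1) / 2, ?_⟩
    linear_combination (1 / 4 : ℂ) * hs
  have hz3 : z ^ 3 = 1 := by linear_combination (z - 1) * hz
  refine h z (z ^ t) hz ?_ ?_
  · rw [← pow_mul, mul_comm, pow_mul, hz3, one_pow]
  · rw [curve_eval k c t z hz, h1, h2]
    simp

theorem cUV_bound (k : ℕ) (c : ℕ → ℕ → ℤ) (H : ℤ) (hc : ∀ i ≤ k, ∀ l ≤ k, |c i l| ≤ H) (t : ℕ) :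
    |cU k c t| ≤ ((k : ℤ) + 1) ^ 2 * H ∧ |cV k c t| ≤ ((k : ℤ) + 1) ^ 2 * H := by
  have hH : 0 ≤ H := le_trans (abs_nonneg _) (hc 0 (Nat.zero_le _) 0 (Nat.zero_le _))
  have key : ∀ g : ℕ → ℕ → ℤ, (∀ i l, |g i l| ≤ 1) →
      |∑ i ∈ range (k + 1), ∑ l ∈ range (k + 1), c i l * g i l| ≤ ((k : ℤ) + 1) ^ 2 * H := by
    intro g hg
    calc |∑ i ∈ range (k + 1), ∑ l ∈ range (k + 1), c i l * g i l|
        ≤ ∑ i ∈ range (k + 1), |∑ l ∈ range (k + 1), c i l * g i l| := abs_sum_le_sum_abs _ _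
      _ ≤ ∑ i ∈ range (k + 1), ∑ l ∈ range (k + 1), |c i l * g i l| :=
          sum_le_sum fun i _ => abs_sum_le_sum_abs _ _
      _ ≤ ∑ i ∈ range (k + 1), ∑ l ∈ range (k + 1), H := by
          refine sum_le_sum fun i hi => sum_le_sum fun l hl => ?_
          rw [mem_range, Nat.lt_succ_iff] at hi hl
          rw [abs_mul]
          calc |c i l| * |g i l| ≤ H * 1 := mul_le_mul (hc i hi l hl) (hg i l) (abs_nonneg _) hH
            _ = H := mul_one H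
      _ = ((k : ℤ) + 1) ^ 2 * H := by
          rw [sum_const, sum_const, card_range, smul_smul, nsmul_eq_mul]
          push_cast
          ring
  exact ⟨key _ fun i l => (uv_bound _).1, key _ fun i l => (uv_bound _).2⟩

theorem cN_bound (k : ℕ) (c : ℕ → ℕ → ℤ) (H : ℤ) (hc : ∀ i ≤ k, ∀ l ≤ k, |c i l| ≤ H) (t : ℕ) :
    (cN k c t).natAbs ≤ 3 * (((k : ℤ) + 1) ^ 2 * H).natAbs ^ 2 := by
  obtain ⟨h1, h2⟩ := cUV_bound k c H hc t
  obtain ⟨M, hM⟩ : ∃ M : ℤ, M = ((k : ℤ) + 1) ^ 2 * H := ⟨_, rfl⟩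
  rw [← hM] at h1 h2 ⊢
  have hM0 : 0 ≤ M := le_trans (abs_nonneg _) h1
  have e : ((cN k c t).natAbs : ℤ) ≤ 3 * (M.natAbs : ℤ) ^ 2 := by
    rw [Int.natCast_natAbs, Int.natCast_natAbs, sq_abs]
    have a1 : cU k c t ^ 2 ≤ M ^ 2 := sq_le_sq' (by linarith [abs_le.1 h1]) (abs_le.1 h1).2
    have a2 : cV k c t ^ 2 ≤ M ^ 2 := sq_le_sq' (by linarith [abs_le.1 h2]) (abs_le.1 h2).2
    have a3 : |cU k c t * cV k c t| ≤ M ^ 2 := by
      rw [abs_mul, pow_two]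
      exact mul_le_mul h1 h2 (abs_nonneg _) hM0
    have a4 := abs_le.1 a3
    unfold cN
    rw [abs_le]
    constructor
    · nlinarith [sq_nonneg (cU k c t), sq_nonneg (cV k c t), sq_nonneg M]
    · linarith
  exact_mod_cast e

/-- `p` divides one of the norms -/
theorem prime_dvd (k : ℕ) (c : ℕ → ℕ → ℤ) (a b : ℤ) (p : ℕ) (hp : p.Prime)
    (h1 : (p : ℤ) ∣ a ^ 2 + a + 1) (h2 : (p : ℤ) ∣ b ^ 3 - 1)
    (h : ∑ i ∈ range (k + 1), ∑ l ∈ range (k + 1), c i l * a ^ i * b ^ l = 0) :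
    (p : ℤ) ∣ cN k c 0 * cN k c 1 * cN k c 2 := by
  have : Fact p.Prime := ⟨hp⟩
  have e1 : (a : ZMod p) ^ 2 + a + 1 = 0 := by
    have := (ZMod.intCast_zmod_eq_zero_iff_dvd (a ^ 2 + a + 1) p).2 h1
    push_cast at this
    exact this
  have e2 : (b : ZMod p) ^ 3 - 1 = 0 := by
    have := (ZMod.intCast_zmod_eq_zero_iff_dvd (b ^ 3 - 1) p).2 h2
    push_cast at this
    exact this
  have e3 : ∑ i ∈ range (k + 1), ∑ l ∈ range (k + 1), (c i l : ZMod p) * (a : ZMod p) ^ i *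
      (b : ZMod p) ^ l = 0 := by
    have := congrArg (Int.cast : ℤ → ZMod p) h
    push_cast at this
    exact this
  obtain ⟨α, hα⟩ : ∃ α : ZMod p, α = (a : ZMod p) := ⟨_, rfl⟩
  obtain ⟨β, hβ⟩ : ∃ β : ZMod p, β = (b : ZMod p) := ⟨_, rfl⟩
  rw [← hα] at e1 e3
  rw [← hβ] at e2 e3
  have e4 : (β - 1) * ((β - α) * (β - α ^ 2)) = 0 := by
    linear_combination e2 + (-(β - 1) * β + (β - 1) * (α - 1)) * e1
  have e5 : ∃ t < 3, β = α ^ t := by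
    rcases mul_eq_zero.1 e4 with h3 | h3
    · exact ⟨0, by norm_num, by rw [pow_zero]; exact sub_eq_zero.1 h3⟩
    · rcases mul_eq_zero.1 h3 with h4 | h4
      · exact ⟨1, by norm_num, by rw [pow_one]; exact sub_eq_zero.1 h4⟩
      · exact ⟨2, by norm_num, sub_eq_zero.1 h4⟩
  obtain ⟨t, ht, e6⟩ := e5
  rw [e6, curve_eval k c t α e1] at e3
  have e7 : ((cN k c t : ℤ) : ZMod p) = 0 := by
    unfold cN
    push_cast
    linear_combination ((cU k c t : ZMod p) + (cV k c t : ZMod p) * (-1 - α)) * e3 +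
      (cV k c t : ZMod p) ^ 2 * e1
  have e8 : (p : ℤ) ∣ cN k c t := (ZMod.intCast_zmod_eq_zero_iff_dvd _ p).1 e7
  interval_cases t
  · exact (e8.mul_right _).mul_right _
  · exact (e8.mul_left _).mul_right _
  · exact e8.mul_left _

end Pool.Agent.Helper46.DG
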