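import Pool.Agent.Helper46.DG.Main

/-!
# Solutions of `(a³ - 1)(b³ - 1) = x²` on lines whose slope is the square of a rational number

Runge's method on `s² b = r² a + e`: the solutions are bounded by a polynomial in `r`, `s`, `|e|`.
-/

set_option autoImplicit false

namespace Pool.Agent.Helper46.DG

open Finset Pool.Agent.Helper46.CU

/-- no square strictly between consecutive squares, with a remainder `R` of either sign -/
theorem sq_gap (T R X : ℤ) (hX : 0 ≤ X) (hT : 0 < T) (h : X ^ 2 = T ^ 2 + R) (h0 : R ≠ 0)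
    (h1 : -(2 * T - 1) < R) (h2 : R < 2 * T + 1) : False := by
  rcases lt_trichotomy X T with h3 | h3 | h3
  · have h4 : X ≤ T - 1 := by omega
    have h5 : X ^ 2 ≤ (T - 1) ^ 2 := pow_le_pow_left₀ hX h4 2
    nlinarith
  · rw [h3] at h
    apply h0
    linarith
  · have h4 : T + 1 ≤ X := by omega
    have h5 : (T + 1) ^ 2 ≤ X ^ 2 := pow_le_pow_left₀ (by omega) h4 2
    nlinarith

theorem lines_id (α e ρ σ X : ℤ) (h : (α ^ 3 - ρ) * ((α + e) ^ 3 - σ) = X ^ 2) :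
    (16 * X) ^ 2 = (16 * α ^ 3 + 24 * e * α ^ 2 + 6 * e ^ 2 * α - e ^ 3 - 8 * (ρ + σ)) ^ 2 +
      ((12 * e ^ 4 + 384 * (σ * e) - 384 * (ρ * e)) * α ^ 2 +
        (12 * e ^ 5 + 96 * (σ * e ^ 2) - 672 * (ρ * e ^ 2)) * α +
        (-e ^ 6 - 272 * (ρ * e ^ 3) - 16 * (σ * e ^ 3) - 64 * ρ ^ 2 + 128 * (ρ * σ) -
          64 * σ ^ 2)) := by
  have h1 : (16 * X) ^ 2 = 256 * X ^ 2 := by ring
  rw [h1, ← h]
  ring

theorem quad_bound (c2 c1 c0 α Q : ℤ) (hQ : 1000 ≤ Q) (hα : 2 * Q ≤ α) (h2 : |c2| ≤ Q)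
    (h1 : |c1| ≤ Q) (h0 : |c0| ≤ Q) :
    |c2 * α ^ 2 + c1 * α + c0| ≤ 3 * Q * α ^ 2 := by
  have hα0 : 0 < α := by linarith
  have hα2 : α ≤ α ^ 2 := by nlinarith
  have e2 : |c2 * α ^ 2| ≤ Q * α ^ 2 := by
    rw [abs_mul, abs_of_nonneg (sq_nonneg α)]
    exact mul_le_mul_of_nonneg_right h2 (sq_nonneg α)
  have e1 : |c1 * α| ≤ Q * α ^ 2 := by
    rw [abs_mul, abs_of_pos hα0]
    exact (mul_le_mul_of_nonneg_right h1 hα0.le).trans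
      (mul_le_mul_of_nonneg_left hα2 (by linarith))
  have e0 : |c0| ≤ Q * α ^ 2 := by
    refine h0.trans ?_
    have : (1 : ℤ) ≤ α ^ 2 := by linarith
    nlinarith
  calc |c2 * α ^ 2 + c1 * α + c0| ≤ |c2 * α ^ 2 + c1 * α| + |c0| := abs_add_le _ _
    _ ≤ |c2 * α ^ 2| + |c1 * α| + |c0| := by linarith [abs_add_le (c2 * α ^ 2) (c1 * α)]
    _ ≤ _ := by linarith

theorem quad_ne (c2 c1 c0 α Q : ℤ) (hQ : 1000 ≤ Q) (hα : 2 * Q ≤ α)
    (h1 : |c1| ≤ Q) (h0 : |c0| ≤ Q) (hne : ¬ (c2 = 0 ∧ c1 = 0 ∧ c0 = 0)) :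
    c2 * α ^ 2 + c1 * α + c0 ≠ 0 := by
  intro h
  have hα0 : 0 < α := by linarith
  by_cases hc2 : c2 = 0
  · rw [hc2] at h
    by_cases hc1 : c1 = 0
    · rw [hc1] at h
      exact hne ⟨hc2, hc1, by linarith⟩
    · have e1 : 1 ≤ |c1| := Int.one_le_abs hc1
      have e2 : |c1 * α| = |c0| := by
        have : c1 * α = -c0 := by linarith
        rw [this, abs_neg]
      rw [abs_mul, abs_of_pos hα0] at e2
      have e3 : 1 * α ≤ |c1| * α := mul_le_mul_of_nonneg_right e1 hα0.le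
      linarith
  · have e1 : 1 ≤ |c2| := Int.one_le_abs hc2
    have e2 : |c2 * α ^ 2| = |c1 * α + c0| := by
      have : c2 * α ^ 2 = -(c1 * α + c0) := by linarith
      rw [this, abs_neg]
    have e3 : |c1 * α + c0| ≤ Q * α + Q := by
      refine (abs_add_le _ _).trans ?_
      rw [abs_mul, abs_of_pos hα0]
      exact add_le_add (mul_le_mul_of_nonneg_right h1 hα0.le) h0
    rw [abs_mul, abs_of_nonneg (sq_nonneg α)] at e2
    have e4 : 1 * α ^ 2 ≤ |c2| * α ^ 2 := mul_le_mul_of_nonneg_right e1 (sq_nonneg α)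
    have e5 : 2 * Q * α ≤ α ^ 2 := by
      have := mul_le_mul_of_nonneg_right hα hα0.le
      calc 2 * Q * α ≤ α * α := this
        _ = α ^ 2 := by ring
    nlinarith

theorem lines_runge (α e ρ σ X M : ℤ) (hM : 1 ≤ M) (he : |e| ≤ M) (hρ : 0 < ρ) (hρM : ρ ≤ M)
    (hσ : 0 < σ) (hσM : σ ≤ M) (hne : ¬ (e = 0 ∧ ρ = σ)) (hX : 0 ≤ X)
    (h : (α ^ 3 - ρ) * ((α + e) ^ 3 - σ) = X ^ 2) : α < 2000 * M ^ 6 := by
  by_contra hc
  push Not at hc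
  have hM6 : ∀ i ≤ 6, M ^ i ≤ M ^ 6 := fun i hi => pow_le_pow_right₀ hM hi
  have hM61 : 1 ≤ M ^ 6 := one_le_pow₀ hM
  have hρ' : |ρ| ≤ M := by rw [abs_of_pos hρ]; exact hρM
  have hσ' : |σ| ≤ M := by rw [abs_of_pos hσ]; exact hσM
  have pe : ∀ i ≤ 6, |e ^ i| ≤ M ^ i := fun i _ => by
    rw [abs_pow]
    exact pow_le_pow_left₀ (abs_nonneg _) he i
  have pm : ∀ y : ℤ, |y| ≤ M → ∀ i, i + 1 ≤ 6 → |y * e ^ i| ≤ M ^ 6 := fun y hy i hi => by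
    rw [abs_mul]
    calc |y| * |e ^ i| ≤ M * M ^ i :=
          mul_le_mul hy (pe i (by omega)) (abs_nonneg _) (by linarith)
      _ = M ^ (i + 1) := by ring
      _ ≤ M ^ 6 := hM6 _ hi
  have q2 : ∀ y y' : ℤ, |y| ≤ M → |y'| ≤ M → |y * y'| ≤ M ^ 6 := fun y y' hy hy' => by
    rw [abs_mul]
    calc |y| * |y'| ≤ M * M := mul_le_mul hy hy' (abs_nonneg _) (by linarith)
      _ = M ^ 2 := by ring
      _ ≤ M ^ 6 := hM6 2 (by norm_num)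
  have m4 := abs_le.1 ((pe 4 (by norm_num)).trans (hM6 4 (by norm_num)))
  have m5 := abs_le.1 ((pe 5 (by norm_num)).trans (hM6 5 (by norm_num)))
  have m6 := abs_le.1 (pe 6 (by norm_num))
  have m3 := abs_le.1 ((pe 3 (by norm_num)).trans (hM6 3 (by norm_num)))
  have m1 := abs_le.1 ((pe 1 (by norm_num)).trans (hM6 1 (by norm_num)))
  rw [pow_one] at m1
  have s1 := abs_le.1 (pm σ hσ' 1 (by norm_num))
  have r1 := abs_le.1 (pm ρ hρ' 1 (by norm_num))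
  rw [pow_one] at s1 r1
  have s2 := abs_le.1 (pm σ hσ' 2 (by norm_num))
  have r2 := abs_le.1 (pm ρ hρ' 2 (by norm_num))
  have s3 := abs_le.1 (pm σ hσ' 3 (by norm_num))
  have r3 := abs_le.1 (pm ρ hρ' 3 (by norm_num))
  have rr := abs_le.1 (q2 ρ ρ hρ' hρ')
  have rs := abs_le.1 (q2 ρ σ hρ' hσ')
  have ss := abs_le.1 (q2 σ σ hσ' hσ')
  have hMM : M ≤ M ^ 6 := by
    have := hM6 1 (by norm_num)
    rwa [pow_one] at this
  obtain ⟨Q, hQe⟩ : ∃ Q : ℤ, Q = 1000 * M ^ 6 := ⟨_, rfl⟩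
  obtain ⟨c2, hc2⟩ : ∃ c : ℤ, c = 12 * e ^ 4 + 384 * (σ * e) - 384 * (ρ * e) := ⟨_, rfl⟩
  obtain ⟨c1, hc1⟩ : ∃ c : ℤ, c = 12 * e ^ 5 + 96 * (σ * e ^ 2) - 672 * (ρ * e ^ 2) := ⟨_, rfl⟩
  obtain ⟨c0, hc0⟩ : ∃ c : ℤ, c = -e ^ 6 - 272 * (ρ * e ^ 3) - 16 * (σ * e ^ 3) - 64 * ρ ^ 2 +
    128 * (ρ * σ) - 64 * σ ^ 2 := ⟨_, rfl⟩
  have hQ : 1000 ≤ Q := by linarith
  have hα : 2 * Q ≤ α := by linarith
  have b2 : |c2| ≤ Q := by
    rw [abs_le, hc2, hQe]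
    constructor <;> linarith [m4.1, m4.2, s1.1, s1.2, r1.1, r1.2]
  have b1 : |c1| ≤ Q := by
    rw [abs_le, hc1, hQe]
    constructor <;> linarith [m5.1, m5.2, s2.1, s2.2, r2.1, r2.2]
  have b0 : |c0| ≤ Q := by
    rw [abs_le, hc0, hQe, pow_two ρ, pow_two σ]
    constructor <;> linarith [m6.1, m6.2, s3.1, s3.2, r3.1, r3.2, rr.1, rr.2, rs.1, rs.2,
      ss.1, ss.2]
  have hcne : ¬ (c2 = 0 ∧ c1 = 0 ∧ c0 = 0) := by
    rintro ⟨z2, z1, z0⟩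
    by_cases he0 : e = 0
    · apply hne
      refine ⟨he0, ?_⟩
      rw [hc0, he0] at z0
      have z3 : (ρ - σ) ^ 2 = 0 := by
        have z30 : 64 * (ρ - σ) ^ 2 = 0 := by linear_combination -z0
        omega
      have z4 : ρ - σ = 0 := pow_eq_zero_iff (two_ne_zero) |>.1 z3
      linarith
    · have z3 : e * (e ^ 3 + 32 * σ - 32 * ρ) = 0 := by
        have : 12 * (e * (e ^ 3 + 32 * σ - 32 * ρ)) = 0 := by
          rw [← z2, hc2]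
          ring
        linarith
      have z4 : e ^ 3 + 32 * σ - 32 * ρ = 0 := (mul_eq_zero.1 z3).resolve_left he0
      have z5 : c1 = -288 * (e ^ 2 * (ρ + σ)) := by
        rw [hc1]
        linear_combination (12 * e ^ 2) * z4
      rw [z5] at z1
      have z6 : 0 < e ^ 2 := by positivity
      have z7 : 0 < e ^ 2 * (ρ + σ) := mul_pos z6 (by linarith)
      linarith
  have id := lines_id α e ρ σ X h
  rw [← hc2, ← hc1, ← hc0] at id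
  have hR := quad_bound c2 c1 c0 α Q hQ hα b2 b1 b0
  have hRne := quad_ne c2 c1 c0 α Q hQ hα b1 b0 hcne
  have hR' := abs_le.1 hR
  have hα0 : 0 < α := by linarith
  have ha2 : 0 < α ^ 2 := by positivity
  have hα3 : 2 * Q * α ^ 2 ≤ α ^ 3 := by
    calc 2 * Q * α ^ 2 ≤ α * α ^ 2 := mul_le_mul_of_nonneg_right hα ha2.le
      _ = α ^ 3 := by ring
  have hT : 16 * α ^ 3 - Q * α ^ 2 ≤
      16 * α ^ 3 + 24 * e * α ^ 2 + 6 * e ^ 2 * α - e ^ 3 - 8 * (ρ + σ) := by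
    have t1 : -(24 * M ^ 6) * α ^ 2 ≤ 24 * e * α ^ 2 :=
      mul_le_mul_of_nonneg_right (by linarith [m1.1]) ha2.le
    have t2 : 0 ≤ 6 * e ^ 2 * α := by positivity
    have t31 : 1 ≤ α ^ 2 := by omega
    have t3 : M ^ 6 * 1 ≤ M ^ 6 * α ^ 2 := mul_le_mul_of_nonneg_left t31 (by linarith)
    have t4 : Q * α ^ 2 = 1000 * (M ^ 6 * α ^ 2) := by rw [hQe]; ring
    have t5 : -(24 * M ^ 6) * α ^ 2 = -24 * (M ^ 6 * α ^ 2) := by ring
    rw [t4]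
    rw [t5] at t1
    linarith [m3.2]
  have hα31 : 1 ≤ α ^ 3 := by
    have : 0 < α ^ 3 := by positivity
    omega
  have hQa : 0 < Q * α ^ 2 := by positivity
  refine sq_gap _ _ (16 * X) (by linarith) ?_ id hRne ?_ ?_
  · linarith
  · linarith [hR'.1]
  · linarith [hR'.2]

/-- a rational third root of unity does not exist -/
theorem zAB (A B : ℤ) (z : ℂ) (hz : z ^ 2 + z + 1 = 0) (h : (A : ℂ) * z = B) : A = 0 ∧ B = 0 := by
  have h3 : ((B ^ 2 + A * B + A ^ 2 : ℤ) : ℂ) = 0 := by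
    push_cast
    rw [← h]
    linear_combination ((A : ℂ) ^ 2) * hz
  have h4 : B ^ 2 + A * B + A ^ 2 = 0 := by exact_mod_cast h3
  have hA0 : A = 0 := by
    by_contra h5
    have h6 : 0 < A ^ 2 := by positivity
    nlinarith [sq_nonneg (2 * B + A)]
  refine ⟨hA0, ?_⟩
  rw [hA0] at h4
  have h5 : B ^ 2 = 0 := by linarith
  exact pow_eq_zero_iff (two_ne_zero) |>.1 h5

/-- the coefficients of `s² y - r² x - e` -/
def lin (r s : ℕ) (e : ℤ) (i l : ℕ) : ℤ :=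
  if i = 0 ∧ l = 0 then -e else if i = 1 ∧ l = 0 then -(r : ℤ) ^ 2
    else if i = 0 ∧ l = 1 then (s : ℤ) ^ 2 else 0

theorem lin_eval {R : Type*} [CommRing R] (r s : ℕ) (e : ℤ) (x y : R) :
    ∑ i ∈ range (1 + 1), ∑ l ∈ range (1 + 1), (lin r s e i l : R) * x ^ i * y ^ l =
      (s : R) ^ 2 * y - (r : R) ^ 2 * x - (e : R) := by
  simp [sum_range_succ, lin]
  ring

theorem lin_ne (r s : ℕ) (e : ℤ) (hr : 1 ≤ r) (hne : ¬ (e = 0 ∧ r = s)) (z w : ℂ)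
    (hz : z ^ 2 + z + 1 = 0) (hw : w ^ 3 = 1) :
    ∑ i ∈ range (1 + 1), ∑ l ∈ range (1 + 1), (lin r s e i l : ℂ) * z ^ i * w ^ l ≠ 0 := by
  rw [lin_eval]
  intro h
  have hr' : (1 : ℤ) ≤ r := by exact_mod_cast hr
  have h1 : (w - 1) * ((w - z) * (w - z ^ 2)) = 0 := by
    linear_combination hw + (-(w - 1) * w + (w - 1) * (z - 1)) * hz
  rcases mul_eq_zero.1 h1 with h2 | h2
  · have h3 : w = 1 := sub_eq_zero.1 h2
    rw [h3] at h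
    obtain ⟨hA, -⟩ := zAB ((r : ℤ) ^ 2) ((s : ℤ) ^ 2 - e) z hz (by push_cast; linear_combination -h)
    have : 0 < (r : ℤ) ^ 2 := by positivity
    linarith
  · rcases mul_eq_zero.1 h2 with h3 | h3
    · have h4 : w = z := sub_eq_zero.1 h3
      rw [h4] at h
      obtain ⟨hA, hB⟩ := zAB ((s : ℤ) ^ 2 - (r : ℤ) ^ 2) e z hz
        (by push_cast; linear_combination h)
      apply hne
      refine ⟨hB, ?_⟩
      have h5 : (r : ℤ) ^ 2 = (s : ℤ) ^ 2 := by linarith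
      have h6 : r ^ 2 = s ^ 2 := by exact_mod_cast h5
      exact Nat.pow_left_injective (n := 2) (by norm_num) h6
    · have h4 : w = z ^ 2 := sub_eq_zero.1 h3
      rw [h4] at h
      obtain ⟨hA, -⟩ := zAB ((s : ℤ) ^ 2 + (r : ℤ) ^ 2) (-(s : ℤ) ^ 2 - e) z hz
        (by push_cast; linear_combination -h + ((s : ℂ) ^ 2) * hz)
      have : 0 < (r : ℤ) ^ 2 := by positivity
      have h5 : 0 ≤ (s : ℤ) ^ 2 := sq_nonneg _
      linarith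

/-- the solutions on the line -/
def lnS (r s : ℕ) (e : ℤ) : Set (ℕ × ℕ) :=
  {p : ℕ × ℕ | 1 ≤ p.1 ∧ p.1 < p.2 ∧ (s : ℤ) ^ 2 * p.2 = (r : ℤ) ^ 2 * p.1 + e ∧
    ∃ x : ℕ, 1 ≤ x ∧ ((p.1 : ℤ) ^ 3 - 1) * ((p.2 : ℤ) ^ 3 - 1) = (x : ℤ) ^ 2}

theorem ln_bound (r s : ℕ) (e : ℤ) (hr : 1 ≤ r) (hs : 1 ≤ s) (hne : ¬ (e = 0 ∧ r = s))
    (a b x : ℕ) (hl : (s : ℤ) ^ 2 * b = (r : ℤ) ^ 2 * a + e)
    (hx : ((a : ℤ) ^ 3 - 1) * ((b : ℤ) ^ 3 - 1) = (x : ℤ) ^ 2) :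
    b ≤ 2001 * (r + s + e.natAbs) ^ 36 := by
  obtain ⟨N, hN⟩ : ∃ N : ℕ, N = r + s + e.natAbs := ⟨_, rfl⟩
  rw [← hN]
  have hN1 : 1 ≤ N := by omega
  have hN1' : (1 : ℤ) ≤ N := by exact_mod_cast hN1
  have hrN : (r : ℤ) ≤ N := by exact_mod_cast (by omega : r ≤ N)
  have hsN : (s : ℤ) ≤ N := by exact_mod_cast (by omega : s ≤ N)
  have heN : |e| ≤ (N : ℤ) := by
    rw [Int.abs_eq_natAbs]
    exact_mod_cast (by omega : e.natAbs ≤ N)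
  have hNM : (N : ℤ) ≤ (N : ℤ) ^ 6 := le_self_pow₀ hN1' (by norm_num)
  have hr' : (1 : ℤ) ≤ r := by exact_mod_cast hr
  have hs' : (1 : ℤ) ≤ s := by exact_mod_cast hs
  have h1 := lines_runge ((r : ℤ) ^ 2 * a) e ((r : ℤ) ^ 6) ((s : ℤ) ^ 6)
    ((r : ℤ) ^ 3 * (s : ℤ) ^ 3 * x) ((N : ℤ) ^ 6) (one_le_pow₀ hN1') (heN.trans hNM)
    (by positivity) (pow_le_pow_left₀ (by positivity) hrN 6) (by positivity)
    (pow_le_pow_left₀ (by positivity) hsN 6)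
    (by
      rintro ⟨h2, h3⟩
      refine hne ⟨h2, ?_⟩
      have h4 : r ^ 6 = s ^ 6 := by exact_mod_cast h3
      exact Nat.pow_left_injective (n := 6) (by norm_num) h4)
    (by positivity)
    (by
      rw [← hl]
      linear_combination ((r : ℤ) ^ 6 * (s : ℤ) ^ 6) * hx)
  have h2 : (s : ℤ) ^ 2 * b < 2000 * ((N : ℤ) ^ 6) ^ 6 + N := by
    rw [hl]
    have := (abs_le.1 heN).2
    linarith
  have h3 : (1 : ℤ) * b ≤ (s : ℤ) ^ 2 * b :=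
    mul_le_mul_of_nonneg_right (one_le_pow₀ hs') (by positivity)
  have h4 : ((N : ℤ) ^ 6) ^ 6 = (N : ℤ) ^ 36 := by ring
  have h5 : (N : ℤ) ≤ (N : ℤ) ^ 36 := le_self_pow₀ hN1' (by norm_num)
  rw [h4] at h2
  have h6 : (b : ℤ) ≤ 2001 * (N : ℤ) ^ 36 := by linarith
  exact_mod_cast h6

theorem ln_sub (r s : ℕ) (e : ℤ) (hr : 1 ≤ r) (hs : 1 ≤ s) (hne : ¬ (e = 0 ∧ r = s)) :
    lnS r s e ⊆ crvS 1 (lin r s e) (2001 * (r + s + e.natAbs) ^ 36) := by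
  rintro ⟨a, b⟩ ⟨ha, hab, hl, x, hx, he⟩
  simp only at ha hab hl he
  refine ⟨ha, hab, ln_bound r s e hr hs hne a b x hl he, ⟨x, hx, he⟩, ?_⟩
  show ∑ i ∈ range (1 + 1), ∑ l ∈ range (1 + 1), lin r s e i l * (a : ℤ) ^ i * (b : ℤ) ^ l = 0
  have h5 := lin_eval (R := ℤ) r s e (a : ℤ) (b : ℤ)
  simp only [Int.cast_id] at h5
  rw [h5]
  linarith

theorem crv_finite (k : ℕ) (c : ℕ → ℕ → ℤ) (X : ℕ) : (crvS k c X).Finite := by
  refine Set.Finite.subset (Finset.finite_toSet (Finset.Icc 1 X ×ˢ Finset.Icc 1 X)) ?_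
  rintro ⟨a, b⟩ ⟨h1, h2, h3, -⟩
  simp only at h1 h2 h3
  rw [Finset.mem_coe, mem_product, mem_Icc, mem_Icc]
  exact ⟨⟨h1, by omega⟩, ⟨by omega, h3⟩⟩

theorem lin_bound (r s : ℕ) (e : ℤ) (hr : 1 ≤ r) : ∀ i ≤ 1, ∀ l ≤ 1,
    |lin r s e i l| ≤ (((r + s + e.natAbs) ^ 2 : ℕ) : ℤ) := by
  obtain ⟨N, hN⟩ : ∃ N : ℕ, N = r + s + e.natAbs := ⟨_, rfl⟩
  rw [← hN]
  have hN1' : (1 : ℤ) ≤ N := by exact_mod_cast (by omega : 1 ≤ N)
  have hrN : (r : ℤ) ≤ N := by exact_mod_cast (by omega : r ≤ N)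
  have hsN : (s : ℤ) ≤ N := by exact_mod_cast (by omega : s ≤ N)
  have heN : |e| ≤ (N : ℤ) := by
    rw [Int.abs_eq_natAbs]
    exact_mod_cast (by omega : e.natAbs ≤ N)
  have hNM : (N : ℤ) ≤ (N : ℤ) ^ 2 := le_self_pow₀ hN1' (by norm_num)
  have h1 : (r : ℤ) ^ 2 ≤ (N : ℤ) ^ 2 := pow_le_pow_left₀ (by positivity) hrN 2
  have h2 : (s : ℤ) ^ 2 ≤ (N : ℤ) ^ 2 := pow_le_pow_left₀ (by positivity) hsN 2
  push_cast
  intro i hi l hl
  interval_cases i <;> interval_cases l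
  · simp only [lin, and_self, if_true, abs_neg]
    linarith
  · simpa [lin] using h2
  · simpa [lin] using h1
  · simp [lin]

theorem line_count (hPELL : ST_PELL) (ε : ℝ) (hε : 0 < ε) :
    ∃ C : ℝ, ∀ (r s : ℕ) (e : ℤ), 1 ≤ r → 1 ≤ s → ¬ (e = 0 ∧ r = s) →
      (lnS r s e).Finite ∧ ((lnS r s e).ncard : ℝ) ≤ C * ((r : ℝ) + s + |(e : ℝ)|) ^ ε := by
  obtain ⟨C, hC, h⟩ := curve_count hPELL 1 (ε / 38) (by linarith)
  refine ⟨C * 2001 ^ (ε / 38), fun r s e hr hs hne =>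
    ⟨(crv_finite _ _ _).subset (ln_sub r s e hr hs hne), ?_⟩⟩
  have hsub := ln_sub r s e hr hs hne
  have hlb := lin_bound r s e hr
  have hN : (((r + s + e.natAbs : ℕ)) : ℝ) = (r : ℝ) + s + |(e : ℝ)| := by
    push_cast
    rw [Nat.cast_natAbs]
    push_cast
    rfl
  rw [← hN]
  have hN1 : 1 ≤ r + s + e.natAbs := by omega
  generalize r + s + e.natAbs = N at hsub hlb hN hN1 ⊢
  have hX : 1 ≤ 2001 * N ^ 36 := by
    have hN0 : 0 < N := hN1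
    have : 0 < 2001 * N ^ 36 := by positivity
    exact this
  have h1 := h (N ^ 2) (2001 * N ^ 36) (lin r s e)
    (Nat.one_le_pow _ _ hN1) hX hlb (fun z w => lin_ne r s e hr hne z w)
  have h2 := Set.ncard_le_ncard hsub (crv_finite _ _ _)
  have h3 : ((lnS r s e).ncard : ℝ) ≤ ((crvS 1 (lin r s e) (2001 * N ^ 36)).ncard : ℝ) := by
    exact_mod_cast h2
  refine (h3.trans h1).trans ?_
  have hN0 : (0 : ℝ) ≤ (N : ℝ) := Nat.cast_nonneg N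
  have e1 : ((N ^ 2 : ℕ) : ℝ) * ((2001 * N ^ 36 : ℕ) : ℝ) = 2001 * (N : ℝ) ^ 38 := by
    push_cast
    ring
  rw [e1, Real.mul_rpow (by norm_num) (by positivity), ← Real.rpow_natCast, ← Real.rpow_mul hN0]
  have e2 : ((38 : ℕ) : ℝ) * (ε / 38) = ε := by push_cast; ring
  rw [e2, mul_assoc]

end Pool.Agent.Helper46.DG
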