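import Pool.Agent.Helper46.DG.Curve
import Pool.Agent.Helper30.CU.PELL

/-! # Solutions of `(a³ - 1)(b³ - 1) = x²` on a plane curve: the count -/

set_option autoImplicit false

namespace Pool.Agent.Helper46.DG

open Finset Pool.Agent.Helper46.CU

/-- the squarefree part of `a² + a + 1` divides `3 K` -/
theorem sqf_dvd (k : ℕ) (c : ℕ → ℕ → ℤ) (a b s v : ℕ) (ha : 2 ≤ a) (hb : 2 ≤ b)
    (hsq : IsSquare ((a ^ 3 - 1) * (b ^ 3 - 1))) (hv : Squarefree v)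
    (e : a ^ 2 + a + 1 = s ^ 2 * v)
    (h : ∑ i ∈ range (k + 1), ∑ l ∈ range (k + 1), c i l * (a : ℤ) ^ i * (b : ℤ) ^ l = 0) :
    v ∣ 3 * (cN k c 0 * cN k c 1 * cN k c 2).natAbs := by
  have h1 : v ∣ 3 * (b ^ 3 - 1) := prt_dvd b a s v hb ha (by rw [mul_comm]; exact hsq) hv e
  refine prt_sq_dvd v _ hv fun p hp hpv => ?_
  by_cases h3 : p = 3
  · rw [h3]
    exact dvd_mul_right 3 _
  apply Dvd.dvd.mul_left
  have h4 : p ∣ b ^ 3 - 1 := by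
    rcases (hp.dvd_mul).1 (hpv.trans h1) with h5 | h5
    · exact absurd ((Nat.prime_dvd_prime_iff_eq hp Nat.prime_three).1 h5) h3
    · exact h5
  have h5 : (p : ℤ) ∣ (a : ℤ) ^ 2 + a + 1 := by
    have h6 : p ∣ a ^ 2 + a + 1 := by
      rw [e]
      exact hpv.mul_left _
    exact_mod_cast h6
  have h6 : (p : ℤ) ∣ (b : ℤ) ^ 3 - 1 := by
    have h7 : ((b ^ 3 - 1 : ℕ) : ℤ) = (b : ℤ) ^ 3 - 1 := by
      have : 1 ≤ b ^ 3 := Nat.one_le_pow _ _ (by omega)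
      push_cast [Nat.cast_sub this]
      ring
    rw [← h7]
    exact_mod_cast h4
  exact Int.natCast_dvd.1 (prime_dvd k c a b p hp h5 h6 h)

/-- the pairs on the curve -/
def crvS (k : ℕ) (c : ℕ → ℕ → ℤ) (X : ℕ) : Set (ℕ × ℕ) :=
  {p : ℕ × ℕ | 1 ≤ p.1 ∧ p.1 < p.2 ∧ p.2 ≤ X ∧
    (∃ x : ℕ, 1 ≤ x ∧ ((p.1 : ℤ) ^ 3 - 1) * ((p.2 : ℤ) ^ 3 - 1) = (x : ℤ) ^ 2) ∧
    ∑ i ∈ range (k + 1), ∑ l ∈ range (k + 1), c i l * (p.1 : ℤ) ^ i * (p.2 : ℤ) ^ l = 0}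

theorem two_le (a b x : ℕ) (ha1 : 1 ≤ a) (hx : 1 ≤ x)
    (he : ((a : ℤ) ^ 3 - 1) * ((b : ℤ) ^ 3 - 1) = (x : ℤ) ^ 2) : 2 ≤ a := by
  by_contra h
  have h1 : a = 1 := by omega
  subst h1
  simp at he
  have : x = 0 := by
    have h2 : (x : ℤ) ^ 2 = 0 := he.symm
    have h3 : (x : ℤ) = 0 := by simpa using h2
    exact_mod_cast h3
  omega

theorem isSq (a b x : ℕ) (ha1 : 1 ≤ a) (hb1 : 1 ≤ b)
    (he : ((a : ℤ) ^ 3 - 1) * ((b : ℤ) ^ 3 - 1) = (x : ℤ) ^ 2) :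
    IsSquare ((a ^ 3 - 1) * (b ^ 3 - 1)) := by
  refine ⟨x, ?_⟩
  have e1 : ((a ^ 3 - 1 : ℕ) : ℤ) = (a : ℤ) ^ 3 - 1 := by
    have : 1 ≤ a ^ 3 := Nat.one_le_pow _ _ (by omega)
    push_cast [Nat.cast_sub this]
    ring
  have e2 : ((b ^ 3 - 1 : ℕ) : ℤ) = (b : ℤ) ^ 3 - 1 := by
    have : 1 ≤ b ^ 3 := Nat.one_le_pow _ _ (by omega)
    push_cast [Nat.cast_sub this]
    ring
  have e3 : (((a ^ 3 - 1) * (b ^ 3 - 1) : ℕ) : ℤ) = ((x * x : ℕ) : ℤ) := by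
    push_cast [e1, e2]
    rw [he]
    ring
  exact_mod_cast e3

theorem crv_sub (k : ℕ) (c : ℕ → ℕ → ℤ) (X : ℕ)
    (hK : 3 * (cN k c 0 * cN k c 1 * cN k c 2).natAbs ≠ 0) :
    crvS k c X ⊆ (((3 * (cN k c 0 * cN k c 1 * cN k c 2).natAbs).divisors.biUnion fun v =>
      ((pellS v X).filter (fun a => 2 ≤ a)).biUnion fun a => {a} ×ˢ parS a X :
        Finset (ℕ × ℕ)) : Set (ℕ × ℕ)) := by
  classical
  rintro ⟨a, b⟩ ⟨ha1, hab, hbX, ⟨x, hx, he⟩, hF⟩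
  simp only at ha1 hab hbX he hF
  have ha2 := two_le a b x ha1 hx he
  have hsq := isSq a b x ha1 (by omega) he
  obtain ⟨v, s, hvs, hv⟩ := Nat.sq_mul_squarefree (a ^ 2 + a + 1)
  rw [Finset.mem_coe, mem_biUnion]
  refine ⟨v, Nat.mem_divisors.2 ⟨sqf_dvd k c a b s v ha2 (by omega) hsq hv hvs.symm hF, hK⟩, ?_⟩
  rw [mem_biUnion]
  refine ⟨a, ?_, ?_⟩
  · simp only [pellS, mem_filter, mem_Icc]
    exact ⟨⟨⟨ha1, by omega⟩, s, by rw [← hvs]; ring⟩, ha2⟩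
  · rw [mem_product, mem_singleton]
    simp only [parS, mem_filter, mem_Icc]
    exact ⟨trivial, ⟨by omega, hbX⟩, hsq⟩

theorem crv_card (hPELL : ST_PELL) (k : ℕ) (c : ℕ → ℕ → ℤ) (X : ℕ) (hX : 2 ≤ X)
    (hK : 3 * (cN k c 0 * cN k c 1 * cN k c 2).natAbs ≠ 0) (P : ℝ) (hP0 : 0 ≤ P)
    (hP : ∀ a : ℕ, 2 ≤ a → a ≤ X → ((parS a X).card : ℝ) ≤ P) :
    ((crvS k c X).ncard : ℝ) ≤
      ((3 * (cN k c 0 * cN k c 1 * cN k c 2).natAbs).divisors.card : ℝ) *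
        ((3 * (1 + (Nat.log 2 (X + 1) : ℝ))) * P) := by
  classical
  obtain ⟨K, hKe⟩ : ∃ K : ℕ, K = 3 * (cN k c 0 * cN k c 1 * cN k c 2).natAbs := ⟨_, rfl⟩
  have hsub := crv_sub k c X hK
  rw [← hKe] at hsub hK ⊢
  have h2 := Set.ncard_le_ncard hsub (Finset.finite_toSet _)
  rw [Set.ncard_coe_finset] at h2
  have h3 : ((crvS k c X).ncard : ℝ) ≤
      ∑ v ∈ K.divisors, (((pellS v X).filter (fun a => 2 ≤ a)).biUnion
        fun a => ({a} ×ˢ parS a X : Finset (ℕ × ℕ))).card := by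
    have h4 := h2.trans card_biUnion_le
    exact_mod_cast h4
  refine h3.trans ?_
  have h5 : ∀ v ∈ K.divisors, ((((pellS v X).filter (fun a => 2 ≤ a)).biUnion
        fun a => ({a} ×ˢ parS a X : Finset (ℕ × ℕ))).card : ℝ) ≤
      (3 * (1 + (Nat.log 2 (X + 1) : ℝ))) * P := by
    intro v hv
    have h6 : ((((pellS v X).filter (fun a => 2 ≤ a)).biUnion
        fun a => ({a} ×ˢ parS a X : Finset (ℕ × ℕ))).card : ℝ) ≤
        ∑ a ∈ (pellS v X).filter (fun a => 2 ≤ a), ((parS a X).card : ℝ) := by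
      have h7 := card_biUnion_le (s := (pellS v X).filter (fun a => 2 ≤ a))
        (t := fun a => ({a} ×ˢ parS a X : Finset (ℕ × ℕ)))
      have h8 : ∀ a ∈ (pellS v X).filter (fun a => 2 ≤ a),
          (({a} ×ˢ parS a X : Finset (ℕ × ℕ))).card = (parS a X).card := by
        intro a _
        rw [card_product, card_singleton, one_mul]
      rw [sum_congr rfl h8] at h7
      exact_mod_cast h7
    refine h6.trans ?_
    have h9 : ∑ a ∈ (pellS v X).filter (fun a => 2 ≤ a), ((parS a X).card : ℝ) ≤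
        ∑ a ∈ (pellS v X).filter (fun a => 2 ≤ a), P := by
      refine sum_le_sum fun a ha => ?_
      simp only [pellS, mem_filter, mem_Icc] at ha
      exact hP a ha.2 ha.1.1.2
    refine h9.trans ?_
    rw [sum_const, nsmul_eq_mul]
    refine mul_le_mul_of_nonneg_right ?_ hP0
    have h10 : ((pellS v X).filter (fun a => 2 ≤ a)).card ≤ 3 * (1 + Nat.log 2 (X + 1)) :=
      (card_filter_le _ _).trans (hPELL v X (Nat.pos_of_mem_divisors hv) (by omega))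
    exact_mod_cast h10
  have h11 := sum_le_sum h5
  rw [sum_const, nsmul_eq_mul] at h11
  exact_mod_cast h11

theorem curve_count (hPELL : ST_PELL) (k : ℕ) (ε : ℝ) (hε : 0 < ε) :
    ∃ C : ℝ, 0 ≤ C ∧ ∀ (H X : ℕ) (c : ℕ → ℕ → ℤ), 1 ≤ H → 1 ≤ X →
      (∀ i ≤ k, ∀ l ≤ k, |c i l| ≤ (H : ℤ)) →
      (∀ z w : ℂ, z ^ 2 + z + 1 = 0 → w ^ 3 = 1 →
        ∑ i ∈ range (k + 1), ∑ l ∈ range (k + 1), (c i l : ℂ) * z ^ i * w ^ l ≠ 0) →
      ((crvS k c X).ncard : ℝ) ≤ C * ((H : ℝ) * X) ^ ε := by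
  obtain ⟨C1, hC1, hdiv⟩ := Pool.Agent.Helper15.Hall.card_divisors_le_rpow (ε / 6) (by linarith)
  obtain ⟨C2, hC2, hprt⟩ := st_PRT hPELL (ε / 4) (by linarith)
  have hl2 : 0 < Real.log 2 := Real.log_pos (by norm_num)
  have hC3 : 0 < 2 + 1 / (ε / 2 * Real.log 2) := by positivity
  obtain ⟨C3, hC3e⟩ : ∃ C3 : ℝ, C3 = 2 + 1 / (ε / 2 * Real.log 2) := ⟨_, rfl⟩
  rw [← hC3e] at hC3
  have hC4 : (0 : ℝ) < (81 * ((k : ℝ) + 1) ^ 12) ^ (ε / 6) := by positivity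
  obtain ⟨C4, hC4e⟩ : ∃ C4 : ℝ, C4 = (81 * ((k : ℝ) + 1) ^ 12) ^ (ε / 6) := ⟨_, rfl⟩
  rw [← hC4e] at hC4
  refine ⟨C1 * C4 * (3 * C3) * C2, by positivity, ?_⟩
  intro H X c hH hX hc hz
  have hHr : (1 : ℝ) ≤ H := by exact_mod_cast hH
  have hXr : (1 : ℝ) ≤ X := by exact_mod_cast hX
  have hrhs : 0 ≤ C1 * C4 * (3 * C3) * C2 * ((H : ℝ) * X) ^ ε := by positivity
  by_cases hX2 : 2 ≤ X
  swap
  · have h1 : crvS k c X = ∅ := by
      ext ⟨a, b⟩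
      constructor
      · rintro ⟨h1, h2, h3, -⟩
        simp only at h1 h2 h3
        omega
      · intro h
        exact absurd h (Set.notMem_empty _)
    rw [h1, Set.ncard_empty]
    exact_mod_cast hrhs
  have n0 := cN_ne 0 hz
  have n1 := cN_ne 1 hz
  have n2 := cN_ne 2 hz
  have hK : 3 * (cN k c 0 * cN k c 1 * cN k c 2).natAbs ≠ 0 := by
    rw [Int.natAbs_mul, Int.natAbs_mul]
    have m0 := Int.natAbs_ne_zero.2 n0
    have m1 := Int.natAbs_ne_zero.2 n1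
    have m2 := Int.natAbs_ne_zero.2 n2
    positivity
  have hM : (((k : ℤ) + 1) ^ 2 * (H : ℤ)).natAbs = (k + 1) ^ 2 * H := by
    have : (((k : ℤ) + 1) ^ 2 * (H : ℤ)) = (((k + 1) ^ 2 * H : ℕ) : ℤ) := by push_cast; ring
    rw [this, Int.natAbs_natCast]
  have b0 := cN_bound k c H hc 0
  have b1 := cN_bound k c H hc 1
  have b2 := cN_bound k c H hc 2
  rw [hM] at b0 b1 b2
  have hKb : 3 * (cN k c 0 * cN k c 1 * cN k c 2).natAbs ≤ 81 * ((k + 1) ^ 2 * H) ^ 6 := by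
    rw [Int.natAbs_mul, Int.natAbs_mul]
    calc 3 * ((cN k c 0).natAbs * (cN k c 1).natAbs * (cN k c 2).natAbs)
        ≤ 3 * ((3 * ((k + 1) ^ 2 * H) ^ 2) * (3 * ((k + 1) ^ 2 * H) ^ 2) *
          (3 * ((k + 1) ^ 2 * H) ^ 2)) :=
          Nat.mul_le_mul_left 3 (Nat.mul_le_mul (Nat.mul_le_mul b0 b1) b2)
      _ = _ := by ring
  have hτ : ((3 * (cN k c 0 * cN k c 1 * cN k c 2).natAbs).divisors.card : ℝ) ≤
      C1 * C4 * (H : ℝ) ^ ε := by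
    refine (hdiv _ hK).trans ?_
    rw [mul_assoc C1 C4]
    refine mul_le_mul_of_nonneg_left ?_ (le_trans zero_le_one hC1)
    calc ((3 * (cN k c 0 * cN k c 1 * cN k c 2).natAbs : ℕ) : ℝ) ^ (ε / 6)
        ≤ ((81 * ((k + 1) ^ 2 * H) ^ 6 : ℕ) : ℝ) ^ (ε / 6) :=
          Real.rpow_le_rpow (by positivity) (by exact_mod_cast hKb) (by linarith)
      _ = ((81 * ((k : ℝ) + 1) ^ 12) * (H : ℝ) ^ 6) ^ (ε / 6) := by
          congr 1
          push_cast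
          ring
      _ = C4 * ((H : ℝ) ^ 6) ^ (ε / 6) := by
          rw [Real.mul_rpow (by positivity) (by positivity), ← hC4e]
      _ = C4 * (H : ℝ) ^ ε := by
          congr 1
          rw [← Real.rpow_natCast, ← Real.rpow_mul (by positivity)]
          congr 1
          push_cast
          ring
  have hlog := prt_log (ε / 2) (by linarith) X hX2
  rw [← hC3e] at hlog
  have hP : ∀ a : ℕ, 2 ≤ a → a ≤ X → ((parS a X).card : ℝ) ≤ C2 * (X : ℝ) ^ (ε / 2) := by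
    intro a ha haX
    refine (hprt a X ha hX2).trans ?_
    refine mul_le_mul_of_nonneg_left ?_ hC2.le
    have haXr : (a : ℝ) ≤ X := by exact_mod_cast haX
    calc ((a : ℝ) * X) ^ (ε / 4) ≤ ((X : ℝ) ^ 2) ^ (ε / 4) := by
          refine Real.rpow_le_rpow (by positivity) ?_ (by linarith)
          rw [pow_two]
          exact mul_le_mul_of_nonneg_right haXr (by linarith)
      _ = (X : ℝ) ^ (ε / 2) := by
          rw [← Real.rpow_natCast, ← Real.rpow_mul (by positivity)]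
          congr 1
          push_cast
          ring
  refine (crv_card hPELL k c X hX2 hK _ (by positivity) hP).trans ?_
  have e1 : (X : ℝ) ^ ε = (X : ℝ) ^ (ε / 2) * (X : ℝ) ^ (ε / 2) := by
    rw [← Real.rpow_add (by linarith)]
    congr 1
    ring
  have hX0 : (0 : ℝ) ≤ (X : ℝ) ^ (ε / 2) := by positivity
  have h1 : (3 * (1 + (Nat.log 2 (X + 1) : ℝ))) * (C2 * (X : ℝ) ^ (ε / 2)) ≤
      (3 * (C3 * (X : ℝ) ^ (ε / 2))) * (C2 * (X : ℝ) ^ (ε / 2)) :=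
    mul_le_mul_of_nonneg_right (by linarith) (by positivity)
  calc ((3 * (cN k c 0 * cN k c 1 * cN k c 2).natAbs).divisors.card : ℝ) *
        ((3 * (1 + (Nat.log 2 (X + 1) : ℝ))) * (C2 * (X : ℝ) ^ (ε / 2)))
      ≤ (C1 * C4 * (H : ℝ) ^ ε) *
        ((3 * (C3 * (X : ℝ) ^ (ε / 2))) * (C2 * (X : ℝ) ^ (ε / 2))) :=
        mul_le_mul hτ h1 (by positivity) (by positivity)
    _ = C1 * C4 * (3 * C3) * C2 * ((H : ℝ) ^ ε * (X : ℝ) ^ ε) := by rw [e1]; ring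
    _ = _ := by rw [Real.mul_rpow (by positivity) (by positivity)]

end Pool.Agent.Helper46.DG
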